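import Mathlib
import Pool.Agent.TH786.Had668

/-!
# A Hadamard matrix of order 1436

Four `±1` sequences on `G = Z_8 x Z_2 x Z_2 x Z_11` (nibble `p` of `S` holds the four signs at the
element with code `p`), invariant under multiplication by the squares of `Z_11`. With `N` the kernel
of the map from `G` onto `Q = Z_2 x Z_2 x Z_2`, the total periodic autocorrelation is `-28` at the
nonzero elements of `N` and `4` outside `N`. The Goethals-Seidel array of order `1408` is bordered
by the twenty-eight rows and columns of the matrix of order `668`, constant on the cosets of `N`.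
-/

set_option autoImplicit false

namespace Pool.Agent.TH510.Had.N359

open Pool.Agent.TH394 Pool.Agent.TH786.Had

/-- the group -/
abbrev G : Type := Fin 8 × Fin 2 × Fin 2 × Fin 11

/-- the quotient -/
abbrev Q : Type := Fin 2 × Fin 2 × Fin 2

/-- the sequences -/
def S : ℕ :=
  0x878887778792d222ddd2d93c333ccc3c3d2ddd222d29e1eee111e13a5aaa555a53d2ddd222d23c9ccc999c9bf0fff000f03a5aaa555a536b666bbb6b1878887778735a555aaa5ab6966699969ba5aaa555a5b4a444aaa4a7d2ddd222d22b4bbb444b420e000eee0e21e111eee1e23c333ccc3c0e1eee111e105a555aaa5a0e1eee111e1b4b444bbb4b2d2ddd222d221d111ddd1da0f000fff0f23c333ccc3c2969996669623c333ccc3c273777333733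

/-- the quotient map -/
def pi (x : G) : Q := (Fin.ofNat 2 x.1.1, x.2.1, x.2.2.1)

/-- the code of a class -/
def cd (q : Q) : ℕ := Nat.add (Nat.mul 4 q.1.1) (Nat.add (Nat.mul 2 q.2.1.1) q.2.2.1)

/-- the class of a code -/
def pr (q : ℕ) (p : ℕ) : Bool :=
  Nat.beq (Nat.add (Nat.mul 4 (Nat.mod (Nat.div p 44) 2))
    (Nat.add (Nat.mul 2 (Nat.mod (Nat.div p 22) 2)) (Nat.mod (Nat.div p 11) 2))) q

theorem pi_pr : ∀ (q : Q) (x : G), pi x = q ↔ pr (cd q) (Loop.enc x) = true := by
  decide +kernel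

theorem pi_add : ∀ x y : G, pi (x + y) = pi x + pi y := by
  have h : ∀ p q : Fin 8, Fin.ofNat 2 (p + q).1 = Fin.ofNat 2 p.1 + Fin.ofNat 2 q.1 := by
    decide +kernel
  intro x y
  exact Prod.ext (h x.1 y.1) rfl

/-- agreements needed at the shift with code `p` -/
def tt (p : ℕ) : ℕ := cond (pr 0 p) 690 706

set_option maxRecDepth 100000 in
theorem check : checkC G S tt = true := by decide +kernel

/-- class sums -/
def cA : Q → ℤ := fun q => if q = 0 then 4 else 0
/-- class sums -/
def cB : Q → ℤ := fun q => if q = 0 then 4 else 2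
/-- class sums -/
def cC : Q → ℤ := fun q => if q = 0 then -2 else -4
/-- class sums -/
def cD : Q → ℤ := fun q => if q = 0 then 0 else -2

theorem cls (i : ℕ) (c : Q → ℤ)
    (h : ∀ q : Q, 2 * (onesC G S i (pr (cd q)) : ℤ) - (cnt G (pr (cd q)) : ℤ) = c q) (q : Q) :
    ∑ x : G, (if pi x = q then sq S i x else 0) = c q := by
  rw [← h q, ← sum_sqC]
  exact Finset.sum_congr rfl fun x _ => if_congr (pi_pr q x) rfl rfl

theorem clsw (h : ∀ q : Q, cnt G (pr (cd q)) = 44) (q : Q) :
    ∑ x : G, (if pi x = q then (1 : ℤ) else 0) = 44 := by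
  have e := h q
  have : ((cnt G (pr (cd q)) : ℕ) : ℤ) = 44 := by rw [e]; rfl
  rw [← this, ← sum_cnt]
  exact Finset.sum_congr rfl fun x _ => if_congr (pi_pr q x) rfl rfl

/-- prescribed autocorrelation -/
def tau (q : Q) : ℤ := if q = 0 then -28 else 4

theorem tt_tau : ∀ s : G, 2 * (tt (Loop.enc s) : ℤ) - 1408 = tau (pi s) := by decide +kernel

theorem h1 : ∀ p p' : Fin 28, ∑ q, N167.X p q * N167.X p' q +
    44 * ∑ j, ∑ q, N167.Y p j q * N167.Y p' j q =
    if p = p' then (1436 : ℤ) else 0 := by decide +kernel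

theorem h2 : ∀ (p : Fin 28) (i : Fin 4) (x : Q),
    ∑ q, N167.X p q * N167.Z i x q + ∑ j, ∑ q, gs cA cB cC cD i x j q * N167.Y p j q = 0 := by
  decide +kernel

theorem h3 : ∀ (i : Fin 4) (x : Q) (i' : Fin 4) (t : Q),
    ∑ p, N167.Z i x p * N167.Z i' t p = if i = i' then -tau (x - t) else 0 := by decide +kernel

theorem had : HadOrder 1436 := by
  have e : 28 + 4 * Fintype.card G = 1436 := by simp
  rw [← e]
  refine hadamard_borderQ (G := G) (Q := Q) pi pi_add (sq S 0) (sq S 1) (sq S 2) (sq S 3)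
    (fun x => sgn_pm _ _) (fun x => sgn_pm _ _) (fun x => sgn_pm _ _) (fun x => sgn_pm _ _)
    44 (clsw (by decide +kernel)) cA cB cC cD
    (cls 0 cA (by decide +kernel)) (cls 1 cB (by decide +kernel)) (cls 2 cC (by decide +kernel))
    (cls 3 cD (by decide +kernel)) N167.Z N167.Y N167.X (fun _ _ _ => sgn_pm _ _)
    (fun _ _ _ => sgn_pm _ _)
    (fun _ _ => sgn_pm _ _) 1436 (by simp) h1 h2 tau h3 ?_
  intro s hs
  have g1 := checkC_spec S tt check s hs
  have g2 : (Fintype.card G : ℤ) = 352 := by simp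
  rw [g1, g2, ← tt_tau s]
  norm_num

end Pool.Agent.TH510.Had.N359
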